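import Pool.Agent.Lib.MP_646617_gt.Classes
import Pool.Agent.Lib.MP_646617_gt.Invariance

open scoped Manifold ContDiff
open MeasureTheory

open Pool.Agent.MP_646617_gt in
/-- Let `X` be a compact connected Riemannian manifold on which a compact connected Lie group `G`
acts smoothly, transitively, effectively and by isometries (for instance any compact Riemannian
symmetric space `X = G / K`, of any rank), and let `μ` be the `G`-invariant probability measure on
`X`, that is, the normalised Riemannian volume. Then `X = G / K` has property (F). -/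
theorem Pool.Agent.Results.MP_646617_gt.AllHavePropertyF.result
    {E : Type*} [NormedAddCommGroup E] [NormedSpace ℝ E] [FiniteDimensional ℝ E]
    {X : Type*} [TopologicalSpace X] [ChartedSpace E X] [IsManifold 𝓘(ℝ, E) ∞ X]
    [CompactSpace X] [T2Space X] [ConnectedSpace X]
    {F : Type*} [NormedAddCommGroup F] [NormedSpace ℝ F] [FiniteDimensional ℝ F]
    {G : Type*} [TopologicalSpace G] [ChartedSpace F G] [Group G] [LieGroup 𝓘(ℝ, F) ∞ G]
    [CompactSpace G] [T2Space G] [ConnectedSpace G]
    [MulAction G X] [ContMDiffSMul 𝓘(ℝ, F) 𝓘(ℝ, E) ∞ G X]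
    [MulAction.IsPretransitive G X] [FaithfulSMul G X]
    (met : RMetric E X) (hiso : ActsByIsometries G met)
    [MeasurableSpace X] [BorelSpace X] (μ : Measure X) [IsProbabilityMeasure μ]
    [SMulInvariantMeasure G X μ] :
    PropertyF G met μ := by
  intro ε hε
  obtain ⟨S, hSfin, hS⟩ := finite_subgroup_classes F G ⌈1 / ε⌉₊
  obtain ⟨N, hN⟩ := exists_separating_index ((fun Γ : Subgroup G => eigenvalue met μ Γ) '' S)
    (hSfin.image _)
  have key : ∀ Γ : Subgroup G, Finite Γ → ε < 1 / (Nat.card Γ : ℝ) →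
      eigenvalue met μ Γ ∈ (fun Γ : Subgroup G => eigenvalue met μ Γ) '' S := by
    intro Γ hfin hcard
    have hpos : (0 : ℝ) < Nat.card Γ := by
      exact_mod_cast Nat.card_pos
    have h1 : (Nat.card Γ : ℝ) < 1 / ε := by
      rw [lt_div_iff₀ hpos] at hcard
      rw [lt_div_iff₀ hε, mul_comm]
      exact hcard
    have h2 : Nat.card Γ ≤ ⌈1 / ε⌉₊ := by
      have := Nat.le_ceil (1 / ε)
      exact_mod_cast (h1.le.trans this)
    obtain ⟨Γ', hΓ', g, rfl⟩ := hS Γ hfin h2
    exact ⟨Γ', hΓ', (eigenvalue_conj F hiso g Γ').symm⟩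
  refine ⟨N, fun Γ₁ Γ₂ h1 h2 h3 h4 => ⟨fun h j _ => h j, fun h => ?_⟩⟩
  have heq := hN _ (key Γ₁ h1 h3) _ (key Γ₂ h2 h4) h
  exact fun j => congrFun heq j
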